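import Mathlib
import Pool.Agent.WR.Main

set_option autoImplicit false

/-!
Every real transcendental number has `*`-type at least `0.823`.
-/

namespace Pool.Agent.Results.MP_3c862c_nt.StarTypeLowerBound

open Polynomial

/-- Let `ξ` be a real transcendental number. For infinitely many `n` there are infinitely many real
algebraic numbers `α` of degree at most `n` with `0 < |ξ - α| ≤ H(α) ^ (-w - 1)`, where
`w = 0.823 (n + 1) - 1`. Here `H(α)` is the maximum of the absolute values of the coefficients of an
irreducible integer polynomial `P` with `P(α) = 0`. In particular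
`limsup (w*_n(ξ) + 1) / (n + 1) ≥ 0.823`. -/
theorem result : ∀ ξ : ℝ, Transcendental ℤ ξ →
    ∀ N : ℕ, ∃ n : ℕ, N ≤ n ∧
      Set.Infinite {α : ℝ | ∃ P : ℤ[X], Irreducible P ∧ P.natDegree ≤ n ∧ aeval α P = 0 ∧
        0 < |ξ - α| ∧
        |ξ - α| ≤ ((P.support.sup (fun i => (P.coeff i).natAbs) : ℕ) : ℝ) ^
          (-(823 / 1000 * ((n : ℝ) + 1) - 1) - 1)} := by
  intro ξ hξ N
  exact Pool.Agent.WR.main ξ hξ N

end Pool.Agent.Results.MP_3c862c_nt.StarTypeLowerBound
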