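import Mathlib
import Pool.Agent.H81S.Final

set_option autoImplicit false

/-!
Koksma's star exponents and the uniform exponents of Mahler type: if `ŵ_m(ξ) ≤ (1 + ε²/16) m` for
infinitely many `m` then `w*_n(ξ) ≥ (1 - ε) (n + 1) - 1` for infinitely many `n`.
-/

namespace Pool.Agent.Results.MP_3c862c_nt.UniformExponentCriterion

open Polynomial

/-- Let `ξ` be a real transcendental number and `0 < ε ≤ 1/2`. Suppose that for infinitely many `m`
there are arbitrarily large `Y` such that every nonzero integer polynomial `P` of degree at most `m`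
and height at most `Y` satisfies `|P(ξ)| > Y ^ (-(1 + ε²/16) m)`. Then for infinitely many `n` there
are infinitely many real algebraic numbers `α` of degree at most `n` with
`0 < |ξ - α| ≤ H(α) ^ (-w - 1)`, where `w = (1 - ε) (n + 1) - 1`. -/
theorem result : ∀ ξ : ℝ, Transcendental ℤ ξ → ∀ ε : ℝ, 0 < ε → ε ≤ 1 / 2 →
    (∀ N : ℕ, ∃ m : ℕ, N ≤ m ∧ ∀ X₀ : ℝ, ∃ Y : ℝ, X₀ ≤ Y ∧ ∀ P : ℤ[X], P ≠ 0 → P.natDegree ≤ m →
      ((P.support.sup (fun i => (P.coeff i).natAbs) : ℕ) : ℝ) ≤ Y →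
      Y ^ (-((1 + ε ^ 2 / 16) * (m : ℝ))) < |aeval ξ P|) →
    ∀ N : ℕ, ∃ n : ℕ, N ≤ n ∧
      Set.Infinite {α : ℝ | ∃ P : ℤ[X], Irreducible P ∧ P.natDegree ≤ n ∧ aeval α P = 0 ∧
        0 < |ξ - α| ∧
        |ξ - α| ≤ ((P.support.sup (fun i => (P.coeff i).natAbs) : ℕ) : ℝ) ^
          (-((1 - ε) * ((n : ℝ) + 1) - 1) - 1)} := by
  intro ξ hξ ε hε hε1 h
  exact Pool.Agent.H81S.eps_version ξ hξ ε hε hε1 h

end Pool.Agent.Results.MP_3c862c_nt.UniformExponentCriterion
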